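import Mathlib

namespace Pool.Agent.H.MP_8ae77a_co

open Finset Classical SimpleGraph

variable {V : Type} {G : SimpleGraph V}

theorem ind {x y : V} {P : V → Prop} (h : G.Reachable x y) (h0 : P x)
    (hs : ∀ a b, P a → G.Adj a b → P b) : P y := by
  rw [reachable_iff_reflTransGen] at h
  induction h with
  | refl => exact h0
  | tail _ a ih => exact hs _ _ ih a

def sd (G : SimpleGraph V) (u v : V) : Set V := {w | (G.deleteEdges {s(u, v)}).Reachable u w}

theorem self (u v : V) : u ∈ sd G u v := Reachable.refl _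

theorem ext' {u v a b : V} (h : a ∈ sd G u v) (e : G.Adj a b) (n : s(a, b) ≠ s(u, v)) :
    b ∈ sd G u v := Reachable.trans h (Adj.reachable (deleteEdges_adj.2 ⟨e, n⟩))

theorem br (h : G.IsAcyclic) {u v : V} (a : G.Adj u v) : v ∉ sd G u v :=
  isAcyclic_iff_forall_adj_isBridge.1 h a

theorem dich (h : G.Connected) (u v w : V) : w ∈ sd G u v ∨ w ∈ sd G v u := by
  refine ind (P := fun w => w ∈ sd G u v ∨ w ∈ sd G v u) (h u w) (.inl (self u v)) fun a b h e => ?_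
  by_cases n : s(a, b) = s(u, v)
  · rcases Sym2.eq_iff.1 n with ⟨-, rfl⟩ | ⟨-, rfl⟩
    exacts [.inr (self _ _), .inl (self _ _)]
  · exact h.imp (ext' · e n) (ext' · e (by rwa [Sym2.eq_swap (a := v)]))

theorem cov {u v w : V} (h : w ∈ sd G u v) : w = u ∨ ∃ x, G.Adj u x ∧ x ≠ v ∧ w ∈ sd G x u := by
  refine ind (P := fun w => w = u ∨ ∃ x, G.Adj u x ∧ x ≠ v ∧ w ∈ sd G x u) h (.inl rfl)
    fun a b h e' => ?_
  obtain ⟨e, n⟩ := deleteEdges_adj.1 e'
  obtain rfl | ⟨x, h1, h2, h3⟩ := h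
  · exact .inr ⟨b, e, fun q => n (q ▸ rfl), self _ _⟩
  by_cases n : s(a, b) = s(x, u)
  · rcases Sym2.eq_iff.1 n with ⟨-, rfl⟩ | ⟨-, rfl⟩
    exacts [.inl rfl, .inr ⟨_, h1, h2, self _ _⟩]
  · exact .inr ⟨x, h1, h2, ext' h3 e n⟩

theorem sub (h : G.IsAcyclic) {u v x : V} (a : G.Adj u x) (n : x ≠ v) : sd G x u ⊂ sd G u v := by
  refine ⟨fun w hw => ?_, fun s => br h a.symm (s (self u v))⟩
  refine (ind (P := fun w => w ∈ sd G x u ∧ w ∈ sd G u v) hw ⟨self _ _, ext' (self u v) a (by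
    simp [n, a.ne'])⟩ fun p q ⟨h1, h2⟩ e => ?_).2
  have h3 : q ∈ sd G x u := Reachable.trans h1 e.reachable
  refine ⟨h3, ext' h2 (deleteEdges_adj.1 e).1 fun z => ?_⟩
  rcases Sym2.eq_iff.1 z with ⟨rfl, -⟩ | ⟨-, rfl⟩
  exacts [br h a.symm h1, br h a.symm h3]

def Sep {n : ℕ} (G : SimpleGraph V) (l : Fin n → V) (A B : Finset (Fin n)) : Prop :=
  ∃ F ⊆ G.edgeSet, ∃ p : V → Prop, (∀ x y, (G.deleteEdges F).Reachable x y ↔ (p x ↔ p y)) ∧
    (∀ a ∈ A, p (l a)) ∧ ∀ b ∈ B, ¬ p (l b)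

theorem Sep.symm {n : ℕ} {l : Fin n → V} {A B : Finset (Fin n)} (h : Sep G l A B) : Sep G l B A := by
  obtain ⟨F, h1, p, h2, h3, h4⟩ := h
  exact ⟨F, h1, fun x => ¬ p x, fun x y => (h2 x y).trans not_iff_not.symm, h4,
    fun a h => not_not.2 (h3 a h)⟩

theorem Sep.mono {n : ℕ} {l : Fin n → V} {A B C D : Finset (Fin n)} (h : Sep G l A B)
    (hC : C ⊆ A) (hD : D ⊆ B) : Sep G l C D := by
  obtain ⟨F, h1, p, h2, h3, h4⟩ := h
  exact ⟨F, h1, p, h2, fun a h => h3 a (hC h), fun a h => h4 a (hD h)⟩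

theorem cut (h : G.Connected) {n : ℕ} (l : Fin n → V) (A B : Finset (Fin n)) {u v : V}
    (a : G.Adj u v) : Sep G l (A.filter fun i => l i ∈ sd G u v)
      (B.filter fun i => ¬ l i ∈ sd G u v) := by
  refine ⟨{s(u, v)}, by simpa using a, (· ∈ sd G u v), fun x y => ⟨fun r =>
    ⟨(Reachable.trans · r), (Reachable.trans · r.symm)⟩, fun r => ?_⟩,
    fun i h => (mem_filter.1 h).2, fun i h => (mem_filter.1 h).2⟩
  by_cases hx : x ∈ sd G u v
  · exact (Reachable.symm hx).trans (r.1 hx)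
  · rw [Sym2.eq_swap]
    exact (Reachable.symm ((dich h u v x).resolve_left hx)).trans
      ((dich h u v y).resolve_left (mt r.2 hx))

theorem split [Finite V] (h : G.IsTree) (hd : ∀ v, (G.neighborSet v).ncard ≤ 3) {n : ℕ}
    {l : Fin n → V} (hl : l.Injective) {u v : V} (a : G.Adj u v) {m : ℕ} (hm : 1 ≤ m)
    {A B : Finset (Fin n)} (hA : 3 * m ≤ #A) (hB : 3 * m ≤ #B) :
    ∃ C ⊆ A, ∃ D ⊆ B, m ≤ #C ∧ m ≤ #D ∧ Sep G l C D := by
  let c (X : Finset (Fin n)) (p : V × V) := #(X.filter fun i => l i ∈ sd G p.1 p.2)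
  obtain ⟨⟨u, v⟩, ⟨a, hh⟩, mn⟩ := Set.exists_min_image
    {p : V × V | G.Adj p.1 p.2 ∧ (m ≤ c A p ∨ m ≤ c B p)} (fun p => (sd G p.1 p.2).ncard)
    (Set.toFinite _) <| by
      have : #A ≤ c A (u, v) + c A (v, u) := (card_le_card fun i hi => mem_union.2 <|
        (dich h.connected u v (l i)).imp (mem_filter.2 ⟨hi, ·⟩) (mem_filter.2 ⟨hi, ·⟩)).trans
          (card_union_le _ _)
      by_cases q : m ≤ c A (u, v)
      · exact ⟨(u, v), a, .inl q⟩
      · exact ⟨(v, u), a.symm, .inl (by omega)⟩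
  have bd (X : Finset (Fin n)) (hX : ∀ x, G.Adj u x → x ≠ v → c X (x, u) < m) :
      c X (u, v) ≤ 2 * m := by
    let N := (Set.toFinite (G.neighborSet u)).toFinset.erase v
    have h1 : #N ≤ 2 := by
      have := hd u
      rw [Set.ncard_eq_toFinset_card] at this
      rw [card_erase_of_mem (by simpa using a)]
      omega
    have h2 := card_biUnion_le_card_mul N (fun x => X.filter fun i => l i ∈ sd G x u) (m - 1)
      fun x hx => Nat.le_sub_one_of_lt (hX x (by simpa using mem_of_mem_erase hx)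
        (ne_of_mem_erase hx))
    have h3 : #(univ.filter fun i => l i = u) ≤ 1 := card_le_one.2 fun i hi j hj =>
      hl ((mem_filter.1 hi).2.trans (mem_filter.1 hj).2.symm)
    have h4 : c X (u, v) ≤ #(univ.filter fun i => l i = u) +
        #(N.biUnion fun x => X.filter fun i => l i ∈ sd G x u) := by
      refine (card_le_card fun i hi => mem_union.2 ?_).trans (card_union_le _ _)
      refine (cov (mem_filter.1 hi).2).imp (mem_filter.2 ⟨mem_univ _, ·⟩) fun ⟨x, p, q, r⟩ => ?_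
      exact mem_biUnion.2 ⟨x, mem_erase.2 ⟨q, by simpa using p⟩, mem_filter.2 ⟨(mem_filter.1 hi).1, r⟩⟩
    have := Nat.mul_le_mul_right (m - 1) h1
    omega
  have nh (x) (p : G.Adj u x) (q : x ≠ v) : c A (x, u) < m ∧ c B (x, u) < m := by
    by_contra z
    exact (mn (x, u) ⟨p.symm, by omega⟩).not_gt
      (Set.ncard_lt_ncard (sub h.isAcyclic p q) (Set.toFinite _))
  have b1 := bd A fun x p q => (nh x p q).1
  have b2 := bd B fun x p q => (nh x p q).2
  have e1 := card_filter_add_card_filter_not (s := A) fun i => l i ∈ sd G u v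
  have e2 := card_filter_add_card_filter_not (s := B) fun i => l i ∈ sd G u v
  simp only [c] at hh b1 b2
  rcases hh with hh | hh
  · exact ⟨_, filter_subset _ _, _, filter_subset _ _, hh, by omega, cut h.connected l A B a⟩
  · exact ⟨A.filter fun i => ¬ l i ∈ sd G u v, filter_subset _ _, _, filter_subset _ _, by omega, hh,
      (cut h.connected l B A a).symm⟩

theorem pend {F : Set (Sym2 V)} {L : Set V} (hL : ∀ x ∈ L, (G.neighborSet x).ncard = 1) {x y : V}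
    (hx : x ∉ L) (hy : y ∉ L) (h : (G.deleteEdges F).Reachable x y) :
    (G.deleteEdges (F ∪ {e ∈ G.edgeSet | ∃ z ∈ L, z ∈ e})).Reachable x y := by
  refine (ind (P := fun y => (y ∉ L → (G.deleteEdges (F ∪ {e ∈ G.edgeSet | ∃ z ∈ L, z ∈ e})).Reachable x y) ∧
    (y ∈ L → ∀ z, G.Adj y z → z ∉ L →
      (G.deleteEdges (F ∪ {e ∈ G.edgeSet | ∃ z ∈ L, z ∈ e})).Reachable x z)) h
    ⟨fun _ => .refl _, fun q => absurd q hx⟩ fun a b ⟨h1, h2⟩ e => ?_).1 hy
  obtain ⟨e, n⟩ := deleteEdges_adj.1 e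
  refine ⟨fun hb => ?_, fun hb z hz q => ?_⟩
  · by_cases ha : a ∈ L
    · exact h2 ha b e hb
    refine (h1 ha).trans (Adj.reachable (deleteEdges_adj.2 ⟨e, ?_⟩))
    rintro (q | ⟨-, z, q, r⟩)
    · exact n q
    rcases Sym2.mem_iff.1 r with rfl | rfl
    exacts [ha q, hb q]
  · obtain ⟨w, hw⟩ := Set.ncard_eq_one.1 (hL b hb)
    have p1 : a ∈ ({w} : Set V) := hw ▸ e.symm
    have p2 : z ∈ ({w} : Set V) := hw ▸ hz
    obtain rfl : a = z := Eq.trans p1 (Eq.symm p2)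
    exact h1 q

theorem iso {F : Set (Sym2 V)} {L : Set V} {x y : V} (hx : x ∈ L)
    (h : (G.deleteEdges (F ∪ {e ∈ G.edgeSet | ∃ z ∈ L, z ∈ e})).Reachable x y) : y = x :=
  ind (P := (· = x)) h rfl fun a b q e => by
    subst q
    obtain ⟨e, n⟩ := deleteEdges_adj.1 e
    exact absurd (.inr ⟨e, a, hx, Sym2.mem_mk_left _ _⟩) n

def g {n : ℕ} (L : Finset (Fin n)) (c : Fin n → Bool) (i : Fin n) : Fin n ⊕ Bool :=
  if i ∈ L then .inl i else .inr (c i)

theorem geq {n : ℕ} {L : Finset (Fin n)} {c : Fin n → Bool} {i j : Fin n} :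
    g L c i = g L c j ↔ i = j ∨ i ∉ L ∧ j ∉ L ∧ c i = c j := by
  unfold g
  split_ifs <;> simp [*]
  · rintro rfl; contradiction
  · rintro rfl; contradiction
  · rintro rfl; rfl

theorem real {n : ℕ} {l : Fin n → V} (hl : l.Injective) (h1 : ∀ i, (G.neighborSet (l i)).ncard = 1)
    (L : Finset (Fin n)) (c : Fin n → Bool) {F : Set (Sym2 V)} (hF : F ⊆ G.edgeSet)
    (h : ∀ i ∉ L, ∀ j ∉ L, (G.deleteEdges F).Reachable (l i) (l j) ↔ c i = c j) :
    ∃ F ⊆ G.edgeSet, ∀ i j, g L c i = g L c j ↔ (G.deleteEdges F).Reachable (l i) (l j) := by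
  refine ⟨F ∪ {e ∈ G.edgeSet | ∃ z ∈ l '' L, z ∈ e}, Set.union_subset hF fun e h => h.1,
    fun i j => geq.trans ⟨?_, fun r => ?_⟩⟩
  · rintro (rfl | ⟨p, q, r⟩)
    · rfl
    exact pend (by rintro _ ⟨i, -, rfl⟩; exact h1 i) (by simpa [hl.eq_iff] using p)
      (by simpa [hl.eq_iff] using q) ((h i p j q).2 r)
  by_cases p : i ∈ L
  · exact .inl (hl (iso (Set.mem_image_of_mem l (mem_coe.2 p)) r)).symm
  by_cases q : j ∈ L
  · exact .inl (hl (iso (Set.mem_image_of_mem l (mem_coe.2 q)) r.symm))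
  exact .inr ⟨p, q, (h i p j q).1 (r.mono (deleteEdges_anti Set.subset_union_left))⟩

theorem cardq {n : ℕ} (L : Finset (Fin n)) (c : Fin n → Bool) :
    Nat.card (Quotient (Setoid.ker (g L c))) = #L + #(Lᶜ.image c) := by
  rw [Nat.card_congr (Setoid.quotientKerEquivRange _), ← card_disjSum, ← Set.ncard_coe_finset,
    Nat.card_coe_set_eq]
  congr 1
  ext (x | x)
  · simp only [Set.mem_range, g, mem_coe, inl_mem_disjSum]
    refine ⟨fun ⟨y, h⟩ => ?_, fun h => ⟨x, if_pos h⟩⟩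
    split_ifs at h with q
    exact Sum.inl.inj h ▸ q
  · simp only [Set.mem_range, g, mem_coe, inr_mem_disjSum, mem_image, mem_compl]
    refine ⟨fun ⟨y, h⟩ => ?_, fun ⟨y, q, h⟩ => ⟨y, h ▸ if_neg q⟩⟩
    split_ifs at h with q
    exact ⟨y, q, Sum.inr.inj h⟩

theorem iter {n t : ℕ} {V : Fin t → Type} [∀ i, Finite (V i)] {G : ∀ i, SimpleGraph (V i)}
    {l : ∀ i, Fin n → V i} (h : ∀ i, (G i).IsTree) (hd : ∀ i v, ((G i).neighborSet v).ncard ≤ 3)
    (hl : ∀ i, (l i).Injective) (ha : ∀ i, ∃ u v, (G i).Adj u v) (s : Finset (Fin t)) {m : ℕ}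
    (hm : 1 ≤ m) {A B : Finset (Fin n)} (hA : 3 ^ #s * m ≤ #A) (hB : 3 ^ #s * m ≤ #B) :
    ∃ C ⊆ A, ∃ D ⊆ B, m ≤ #C ∧ m ≤ #D ∧ ∀ i ∈ s, Sep (G i) (l i) C D := by
  induction s using Finset.induction generalizing A B with
  | empty => exact ⟨A, Subset.rfl, B, Subset.rfl, by simpa using hA, by simpa using hB, by simp⟩
  | insert i s hi ih =>
    rw [card_insert_of_notMem hi, pow_succ', mul_assoc] at hA hB
    obtain ⟨u, v, a⟩ := ha i
    obtain ⟨C, h1, D, h2, h3, h4, h5⟩ := split (h i) (hd i) (hl i) a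
      (Nat.mul_pos (by positivity) hm) hA hB
    obtain ⟨C', k1, D', k2, k3, k4, k5⟩ := ih h3 h4
    exact ⟨C', k1.trans h1, D', k2.trans h2, k3, k4,
      forall_mem_insert _ _ _ |>.2 ⟨h5.mono k1 k2, k5⟩⟩

theorem count {n r : ℕ} (S : Set (Setoid (Fin n))) {C D : Finset (Fin n)} (hC : 1 < #C)
    (hD : 1 < #D) (dj : Disjoint C D) (hr : r + 2 ≤ n)
    (h1 : ∀ L : Finset (Fin n), #L = r → Setoid.ker (g L fun _ => true) ∈ S)
    (h2 : Setoid.ker (g (C ∪ D)ᶜ fun i => decide (i ∈ C)) ∈ S) : n.choose r < S.ncard := by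
  have : Finite (Setoid (Fin n)) := .of_injective (fun s => s.r) fun _ _ h => Setoid.ext fun _ _ => by
    simpa using iff_of_eq (congrFun₂ h _ _)
  have k {L M c d} (e : Setoid.ker (g L c) = Setoid.ker (g (n := n) M d)) {i j} (ne : i ≠ j)
      (p : i ∉ L) (q : j ∉ L) (z : c i = c j) : i ∉ M ∧ j ∉ M ∧ d i = d j :=
    (geq.1 (Setoid.ker_def.1 (e ▸ Setoid.ker_def.2 (geq.2 (.inr ⟨p, q, z⟩))))).resolve_left ne
  have k2 {L M : Finset (Fin n)} (hL : #L = r) 
      (e : Setoid.ker (g L fun _ => true) = Setoid.ker (g M fun _ => true)) : M ⊆ L := fun i hi => by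
    by_contra p
    obtain ⟨j, q, ne⟩ := exists_mem_ne (s := Lᶜ) (by rw [card_compl, Fintype.card_fin]; omega) i
    exact (k e ne.symm p (mem_compl.1 q) rfl).1 hi
  refine lt_of_lt_of_le ?_ (Set.ncard_le_ncard (s := (insert (Setoid.ker (g (C ∪ D)ᶜ fun i =>
    decide (i ∈ C))) ((powersetCard r univ).image fun L => Setoid.ker (g L fun _ => true)) :
      Finset (Setoid (Fin n)))) (fun x hx => ?_) (Set.toFinite _))
  · rw [Set.ncard_coe_finset, card_insert_of_notMem, card_image_of_injOn, card_powersetCard, card_fin]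
    · omega
    · exact fun L hL M hM e => (k2 (mem_powersetCard_univ.1 hM) e.symm).antisymm
        (k2 (mem_powersetCard_univ.1 hL) e)
    intro hx
    obtain ⟨L, -, e⟩ := mem_image.1 hx
    obtain ⟨a, ha, a', ha', n1⟩ := one_lt_card.1 hC
    obtain ⟨b, hb, b', hb', n2⟩ := one_lt_card.1 hD
    have p1 := (k e.symm n1 (by simp [ha]) (by simp [ha']) (by simp [ha, ha'])).1
    have p2 := (k e.symm n2 (by simp [hb]) (by simp [hb'])
      (by simp [disjoint_right.1 dj hb, disjoint_right.1 dj hb'])).1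
    simpa [ha, disjoint_right.1 dj hb] using (k e (dj.forall_ne_finset ha hb) p1 p2 rfl).2.2
  · rcases mem_insert.1 hx with rfl | hx
    · exact h2
    obtain ⟨L, hL, rfl⟩ := mem_image.1 hx
    exact h1 L (mem_powersetCard_univ.1 hL)

end Pool.Agent.H.MP_8ae77a_co
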